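import Pool.Agent.Helper61.QE.St1

/-!
# Project QD (MP_d112a4_gt), PART E: module MBF (poles)
-/

open MeasureTheory Set Filter Topology Complex
open scoped ContDiff ComplexConjugate ENNReal

namespace Pool.Agent.Helper52.QE

open Pool.Agent.Helper68.QC Pool.Agent.Helper61.QE

private lemma inv_entries (B : SL) : B⁻¹ 0 0 = B 1 1 ∧ B⁻¹ 0 1 = - B 0 1 ∧ B⁻¹ 1 0 = - B 1 0 ∧
    B⁻¹ 1 1 = B 0 0 := by
  rw [Matrix.SpecialLinearGroup.SL2_inv_expl]
  exact ⟨rfl, rfl, rfl, rfl⟩

theorem pMBF (_hSUB : Pool.Agent.Helper61.QE.StSUB) : Pool.Agent.Helper61.QE.StMBF := by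
  intro B hc
  have hdet : B 0 0 * B 1 1 - B 0 1 * B 1 0 = 1 := by
    have := B.det_coe
    rw [Matrix.det_fin_two] at this
    exact this
  have h1 : ∀ ξ, den B ξ = B 1 0 * (ξ - pl B) := by
    intro ξ
    unfold den pl
    field_simp
    ring
  have h2 : ∀ ξ, ξ ≠ pl B → mob B ξ - cn B = -1 / (B 1 0 ^ 2 * (ξ - pl B)) := by
    intro ξ hξ
    have hξ' : ξ - pl B ≠ 0 := sub_ne_zero.2 hξ
    have hp : B 1 0 * pl B = - B 1 1 := by
      unfold pl
      field_simp
    unfold mob cn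
    rw [h1 ξ]
    generalize pl B = p at *
    field_simp
    linear_combination (B 0 0) * hp - hdet
  refine ⟨h1, h2, fun a b ha hb => ?_, ?_, ?_, (inv_entries B).2.2.1⟩
  · have ha' : a - pl B ≠ 0 := sub_ne_zero.2 ha
    have hb' : b - pl B ≠ 0 := sub_ne_zero.2 hb
    have h3 : (mob B a - mob B b) * (B 1 0 ^ 2 * (a - pl B) * (b - pl B)) = a - b := by
      have e : mob B a - mob B b = (mob B a - cn B) - (mob B b - cn B) := by ring
      rw [e, h2 a ha, h2 b hb]
      generalize pl B = p at *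
      field_simp
      ring
    rw [← norm_pow, ← norm_mul, ← norm_mul, ← norm_mul, h3]
  · unfold pl cn
    rw [(inv_entries B).2.2.1, (inv_entries B).2.2.2, neg_div_neg_eq]
  · unfold pl cn
    rw [(inv_entries B).2.2.1, (inv_entries B).1, div_neg, neg_div]

end Pool.Agent.Helper52.QE
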