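import Pool.Agent.Helper61.QE.St3

/-!
# Project QD (MP_d112a4_gt), PART E: module OUT (the outer domain is large)
-/

open MeasureTheory Set Filter Topology Complex
open scoped ContDiff ComplexConjugate ENNReal

namespace Pool.Agent.Helper52.QE

open Pool.Agent.Helper68.QC Pool.Agent.Helper61.QE

theorem pOUT (hGRW : Pool.Agent.Helper61.QE.StGRW) : Pool.Agent.Helper61.QE.StOUT := by
  intro U G P hGd hPd hP0 hlim y hy
  by_cases hy0 : y = 0
  · exact ⟨0, by simp, by rw [hP0, hy0]⟩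
  have hyn : 0 < ‖y‖ := norm_pos_iff.2 hy0
  have hyi : 1 < ‖y⁻¹‖ := by
    rw [norm_inv]
    exact (one_lt_inv₀ hyn).2 hy
  have hz1 : ∀ n, 1 < ‖(G n).symm y⁻¹‖ := by
    intro n
    by_contra hcon
    have h1 := (hGd n).le _ (not_lt.1 hcon)
    rw [Homeomorph.apply_symm_apply] at h1
    linarith
  have hz2 : ∀ n, ‖y⁻¹‖ ≤ ‖(G n).symm y⁻¹‖ := by
    intro n
    have h1 := (hGRW 1 (G n) (hGd n)).2.1 _ (hz1 n)
    rwa [Homeomorph.apply_symm_apply, one_mul] at h1
  set u : ℕ → ℂ := fun n => ((G n).symm y⁻¹)⁻¹ with hu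
  have hu1 : ∀ n, ‖u n‖ ≤ ‖y‖ := by
    intro n
    have h1 := hz2 n
    rw [norm_inv] at h1
    rw [hu]
    simp only [norm_inv]
    rw [inv_le_comm₀ (by linarith [hz1 n]) hyn]
    exact h1
  have hu2 : ∀ n, PG (G n) (u n) = y := by
    intro n
    unfold PG
    rw [hu]
    simp only [inv_inv, Homeomorph.apply_symm_apply]
  have hle : ((U.map u : Ultrafilter ℂ) : Filter ℂ) ≤ 𝓟 (Metric.closedBall (0 : ℂ) ‖y‖) := by
    rw [le_principal_iff]
    show u ⁻¹' (Metric.closedBall (0 : ℂ) ‖y‖) ∈ (U : Filter ℕ)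
    refine Filter.mem_of_superset Filter.univ_mem fun n _ => ?_
    rw [mem_preimage, mem_closedBall_zero_iff]
    exact hu1 n
  obtain ⟨v, hv, hvl⟩ := (isCompact_closedBall (0 : ℂ) ‖y‖).ultrafilter_le_nhds (U.map u) hle
  have hvD : v ∈ D := by
    rw [mem_closedBall_zero_iff] at hv
    rw [mem_ball_zero_iff]
    exact hv.trans_lt hy
  have huv : Tendsto u (U : Filter ℕ) (𝓝 v) := hvl
  have huD : Tendsto u (U : Filter ℕ) (𝓝[D] v) :=
    tendsto_nhdsWithin_iff.2 ⟨huv, Eventually.of_forall fun n => by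
      rw [mem_ball_zero_iff]
      exact (hu1 n).trans_lt hy⟩
  have h1 := hlim.tendsto_comp (hPd.continuousOn v hvD) hvD huD
  have h2 : Tendsto (fun n => PG (G n) (u n)) (U : Filter ℕ) (𝓝 y) := by
    simp only [hu2]
    exact tendsto_const_nhds
  exact ⟨v, hvD, tendsto_nhds_unique h1 h2⟩

end Pool.Agent.Helper52.QE
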